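import Pool.Agent.helper19.MX.SpecD

/-!
# Project mx (MP_a875de_ag): row AFV (a rational place which is not a pole of `x` lies over an affine point)
-/

namespace MX

open Pool.Agent.helper53.AU AN
open scoped Classical Topology

noncomputable section

theorem AFV_aeval {k F : Type} [Field k] [Field F] [Algebra k F] {P : Place k F} {x : F} (hx : P.Ge 0 x)
    (q : Polynomial k) : P.Ge 0 (Polynomial.aeval x q) := by
  induction q using Polynomial.induction_on' with
  | add p q hp hq =>
    rw [map_add]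
    exact hp.add hq
  | monomial n a =>
    rw [Polynomial.aeval_monomial]
    have h := (hx.pow n).const_mul a
    rw [mul_zero] at h
    exact h

/-- the value of a polynomial -/
theorem AFV_val {k F : Type} [Field k] [Field F] [Algebra k F] {P : Place k F} {x : F} {x₀ : k} (hx : P.Ge 0 x)
    (hx₀ : P.Ge 1 (x - algebraMap k F x₀)) (q : Polynomial k) :
    P.Ge 1 (Polynomial.aeval x q - algebraMap k F (q.eval x₀)) := by
  obtain ⟨g, hg⟩ : (Polynomial.X - Polynomial.C x₀) ∣ q - Polynomial.C (q.eval x₀) := by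
    rw [Polynomial.dvd_iff_isRoot, Polynomial.IsRoot, Polynomial.eval_sub, Polynomial.eval_C, sub_self]
  have h1 : Polynomial.aeval x q - algebraMap k F (q.eval x₀) =
      (x - algebraMap k F x₀) * Polynomial.aeval x g := by
    have h2 := congrArg (Polynomial.aeval x) hg
    rw [map_sub, map_mul, map_sub, Polynomial.aeval_C, Polynomial.aeval_C, Polynomial.aeval_X] at h2
    exact h2
  rw [h1]
  have h3 := hx₀.mul (AFV_aeval hx g)
  rwa [add_zero] at h3

/-- `y` is regular if `y ^ 2 + y` is -/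
theorem AFV_reg {k F : Type} [Field k] [Field F] [Algebra k F] {P : Place k F} {y : F}
    (h : P.Ge 0 (y ^ 2 + y)) : P.Ge 0 y := by
  by_contra hn
  have hy : y ≠ 0 := by
    rintro rfl
    exact hn (P.ge_zero 0)
  have h1 : P.ord y < 0 := by
    by_contra h2
    exact hn (Or.inr (not_lt.mp h2))
  have h2 : y ^ 2 ≠ 0 := pow_ne_zero 2 hy
  have h3 : P.ord (y ^ 2) = 2 * P.ord y := by
    have := P.ord_pow hy 2
    exact_mod_cast this
  obtain ⟨h4, h5⟩ := Place.ord_add_eq (P := P) (f := y ^ 2) (g := y) h2 (Or.inr (by omega))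
  have h6 := h.le h4
  omega

theorem AFV : AFV_stmt := by
  intro k F _ _ _ _ x r y f hAS P hP hx
  obtain ⟨x₀, hx₀⟩ := hP x hx
  have hy : ∀ j, j < r → P.Ge 0 (y j) := fun j hj => AFV_reg (by
    rw [hAS.eq j hj]
    exact AFV_aeval hx (f j))
  have hc : ∀ j, ∃ c : k, j < r → P.Ge 1 (y j - algebraMap k F c) := by
    intro j
    by_cases hj : j < r
    · obtain ⟨c, hc⟩ := hP (y j) (hy j hj)
      exact ⟨c, fun _ => hc⟩
    · exact ⟨0, fun h => absurd h hj⟩
  choose y₀ hy₀ using hc
  refine ⟨x₀, y₀, hx₀, fun j hj => hy₀ j hj, fun j hj => ?_⟩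
  have h1 : P.Ge 1 ((y j ^ 2 + y j) - algebraMap k F (y₀ j ^ 2 + y₀ j)) := by
    have h2 : (y j ^ 2 + y j) - algebraMap k F (y₀ j ^ 2 + y₀ j) =
        (y j - algebraMap k F (y₀ j)) * (y j + algebraMap k F (y₀ j) + 1) := by
      rw [map_add, map_pow]
      ring
    rw [h2]
    have h3 : P.Ge 0 (y j + algebraMap k F (y₀ j) + 1) := by
      have h4 := P.ge_const (1 : k)
      rw [map_one] at h4
      exact ((hy j hj).add (P.ge_const _)).add h4
    have h5 := (hy₀ j hj).mul h3
    rwa [add_zero] at h5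
  rw [hAS.eq j hj] at h1
  have h2 := (AFV_val hx hx₀ (f j)).sub h1
  have h3 : (Polynomial.aeval x (f j) - algebraMap k F ((f j).eval x₀)) -
      (Polynomial.aeval x (f j) - algebraMap k F (y₀ j ^ 2 + y₀ j)) =
      algebraMap k F ((y₀ j ^ 2 + y₀ j) - (f j).eval x₀) := by
    rw [map_sub]
    ring
  rw [h3] at h2
  by_contra hne
  have h4 : (y₀ j ^ 2 + y₀ j) - (f j).eval x₀ ≠ 0 := sub_ne_zero.mpr hne
  have h5 : algebraMap k F ((y₀ j ^ 2 + y₀ j) - (f j).eval x₀) ≠ 0 := by
    rw [Ne, map_eq_zero]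
    exact h4
  have h6 := h2.le h5
  rw [P.ord_const _ h4] at h6
  omega

end

end MX
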