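import Pool.Agent.helper19.MX.SpecA

/-!
# Project mx (MP_a875de_ag): row CTR (transfer of certificates along homomorphisms of subrings)
-/

namespace MX

open Pool.Agent.helper53.AU AN
open scoped Classical Topology

noncomputable section

def CTR_fb {R : Type} [CommRing R] (h : ℕ) (b : ℕ → R) (x : R) : R :=
  ∑ i ∈ Finset.range (h + 1), b i * x ^ (2 ^ h) * x ^ (2 ^ (h - i))

def CTR_PP {R : Type} [CommRing R] (h : ℕ) (b : ℕ → R) (X : R) : R :=
  ∑ i ∈ Finset.Icc 1 h, (b i ^ (2 ^ i) * X ^ (2 ^ (h + i)) + b i * X ^ (2 ^ (h - i)))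

def CTR_cut {R : Type} [CommRing R] (h : ℕ) (b : ℕ → R) (i : ℕ) : R := if i ≤ h then b i else 0

def CTR_Ud {R : Type} [CommRing R] (h : ℕ) (b : ℕ → R) (d : R) (i : ℕ) : R :=
  CTR_cut h b i + CTR_cut h b i ^ 2 * d ^ (2 ^ (h + 1) + 2 ^ (h + 1 - i)) +
    (if 2 ≤ i then CTR_cut h b (i - 1) * d ^ (2 ^ (h + 1 - i)) else 0) +
    CTR_cut h b (i + 1) ^ 2 * d ^ (2 ^ (h + 1))

section
variable {R : Type} [CommRing R] {M : Type} [Field M] (f : R →+* M)

theorem CTR_fb_map (h : ℕ) (b : ℕ → R) (x : R) : fb h (fun i => f (b i)) (f x) = f (CTR_fb h b x) := by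
  unfold fb CTR_fb
  rw [map_sum]
  exact Finset.sum_congr rfl (fun i _ => by rw [map_mul, map_mul, map_pow, map_pow])

theorem CTR_PP_map (h : ℕ) (b : ℕ → R) (x : R) : PP h (fun i => f (b i)) (f x) = f (CTR_PP h b x) := by
  unfold PP CTR_PP
  rw [map_sum]
  exact Finset.sum_congr rfl (fun i _ => by
    rw [map_add, map_mul, map_mul, map_pow, map_pow, map_pow])

theorem CTR_cut_map (h : ℕ) (b : ℕ → R) (i : ℕ) : cut h (fun i => f (b i)) i = f (CTR_cut h b i) := by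
  unfold cut CTR_cut
  split_ifs
  · rfl
  · rw [map_zero]

theorem CTR_Ud_map (h : ℕ) (b : ℕ → R) (d : R) (i : ℕ) :
    Ud h (fun i => f (b i)) (f d) i = f (CTR_Ud h b d i) := by
  unfold Ud CTR_Ud
  rw [CTR_cut_map, CTR_cut_map, CTR_cut_map]
  split_ifs
  · simp only [map_add, map_mul, map_pow]
  · simp only [map_add, map_mul, map_pow, map_zero]

end

section
variable {M : Type} [Field M]

theorem CTR_fb_congr {h : ℕ} {b c : ℕ → M} (hbc : ∀ i, i ≤ h → b i = c i) (x : M) : fb h b x = fb h c x := by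
  unfold fb
  exact Finset.sum_congr rfl (fun i hi => by rw [hbc i (Nat.lt_succ_iff.mp (Finset.mem_range.mp hi))])

theorem CTR_PP_congr {h : ℕ} {b c : ℕ → M} (hbc : ∀ i, i ≤ h → b i = c i) (x : M) : PP h b x = PP h c x := by
  unfold PP
  exact Finset.sum_congr rfl (fun i hi => by rw [hbc i (Finset.mem_Icc.mp hi).2])

theorem CTR_cut_congr {h : ℕ} {b c : ℕ → M} (hbc : ∀ i, i ≤ h → b i = c i) : cut h b = cut h c := by
  funext i
  unfold cut
  split_ifs with h1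
  · exact hbc i h1
  · rfl

theorem CTR_Ud_congr {h : ℕ} {b c : ℕ → M} (hbc : ∀ i, i ≤ h → b i = c i) (d : M) (i : ℕ) :
    Ud h b d i = Ud h c d i := by
  unfold Ud
  rw [CTR_cut_congr hbc]

end

theorem CTR : CTR_stmt := by
  intro L _ θ h b hC
  induction hC with
  | base b v r y hv h1 h0 hy =>
    refine ⟨{v, v⁻¹, r, y}, ?_⟩
    intro A hA K _ φ hθ b' hb'
    have mv : v ∈ A := hA (by simp)
    have mv' : v⁻¹ ∈ A := hA (by simp)
    have mr : r ∈ A := hA (by simp)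
    have my : y ∈ A := hA (by simp)
    obtain ⟨m1, e1⟩ := hb' 1 le_rfl
    obtain ⟨m0, e0⟩ := hb' 0 (Nat.zero_le 1)
    refine Cert.base b' (φ ⟨v, mv⟩) (φ ⟨r, mr⟩) (φ ⟨y, my⟩) ?_ ?_ ?_ ?_
    · intro hz
      have h2 : (⟨v, mv⟩ : A) * ⟨v⁻¹, mv'⟩ = 1 := Subtype.ext (mul_inv_cancel₀ hv)
      have h3 := congrArg φ h2
      rw [map_mul, hz, zero_mul, map_one] at h3
      exact zero_ne_one h3
    · rw [e1, ← map_pow]
      exact congrArg φ (Subtype.ext h1)
    · rw [e0, ← map_pow, ← map_pow, ← map_add, ← map_mul]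
      exact congrArg φ (Subtype.ext h0)
    · rw [← map_pow, ← map_pow, ← map_add, ← map_add]
      exact congrArg φ (Subtype.ext hy)
  | step h b c d β y hC hd hP hy hc ih =>
    obtain ⟨E₀, hE₀⟩ := ih
    refine ⟨E₀ ∪ ({d, d⁻¹, β, y} ∪ (Finset.range (h + 1)).image b), ?_⟩
    intro A hA K _ φ hθ c' hc'
    have hA0 : (E₀ : Set L) ⊆ A := fun x hx => hA (Finset.mem_coe.mpr (Finset.mem_union_left _ hx))
    have md : d ∈ A := hA (by simp)
    have md' : d⁻¹ ∈ A := hA (by simp)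
    have mβ : β ∈ A := hA (by simp)
    have my : y ∈ A := hA (by simp)
    have mb : ∀ i, i ≤ h → b i ∈ A := fun i hi => hA (by
      rw [Finset.mem_coe, Finset.mem_union, Finset.mem_union]
      exact Or.inr (Or.inr (Finset.mem_image_of_mem b (Finset.mem_range.mpr (Nat.lt_succ_of_le hi)))))
    let bA : ℕ → A := fun i => if hb : b i ∈ A then ⟨b i, hb⟩ else 0
    have hbA : ∀ i (hi : i ≤ h), bA i = ⟨b i, mb i hi⟩ := fun i hi => dif_pos (mb i hi)
    have hbA' : ∀ i, i ≤ h → b i = A.subtype (bA i) := fun i hi => by rw [hbA i hi]; rfl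
    have hcert := hE₀ A hA0 K φ hθ (fun i => φ (bA i)) (fun i hi => ⟨mb i hi, by rw [hbA i hi]⟩)
    refine Cert.step h (fun i => φ (bA i)) c' (φ ⟨d, md⟩) (φ ⟨β, mβ⟩) (φ ⟨y, my⟩) hcert ?_ ?_ ?_ ?_
    · intro hz
      have h2 : (⟨d, md⟩ : A) * ⟨d⁻¹, md'⟩ = 1 := Subtype.ext (mul_inv_cancel₀ hd)
      have h3 := congrArg φ h2
      rw [map_mul, hz, zero_mul, map_one] at h3
      exact zero_ne_one h3
    · rw [CTR_PP_map φ, ← map_pow, ← map_mul, ← map_one φ]
      apply congrArg φ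
      apply Subtype.ext
      have h2 := CTR_PP_map A.subtype h bA ⟨β, mβ⟩
      rw [CTR_PP_congr hbA' β] at hP
      show A.subtype (CTR_PP h bA ⟨β, mβ⟩) * d ^ (2 ^ (h + 1)) = 1
      rw [← h2]
      exact hP
    · rw [CTR_fb_map φ, ← map_pow, ← map_add]
      apply congrArg φ
      apply Subtype.ext
      have h2 := CTR_fb_map A.subtype h bA ⟨β, mβ⟩
      rw [CTR_fb_congr hbA' β] at hy
      show y ^ 2 + y = A.subtype (CTR_fb h bA ⟨β, mβ⟩)
      rw [← h2]
      exact hy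
    · intro i hi
      obtain ⟨mc, e⟩ := hc' i hi
      rw [e, CTR_Ud_map φ]
      apply congrArg φ
      apply Subtype.ext
      have h2 := CTR_Ud_map A.subtype h bA ⟨d, md⟩ i
      show c i = A.subtype (CTR_Ud h bA ⟨d, md⟩ i)
      rw [← h2, hc i hi, CTR_Ud_congr hbA' d i]
      rfl

end

end MX
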